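import Pool.Agent.N893.TB.Stm

set_option autoImplicit false

/-! Leaf COMBA of project TB (helper893, MP_74f661_nt): first members of twin pairs are 6 k + 5.
Proved by helper227. -/

namespace Pool.Agent.N227.TB
open Finset Pool.Agent.N893.TB

lemma first_mod {S : Set ℕ} (hS : ∀ n ∈ S, n.Coprime 6) {p : ℕ} (hp : First S p) : p % 6 = 5 := by
  have h1 := hS p hp.1
  have h2 := hS (p + 2) hp.2
  have e1 : Nat.gcd (p % 6) 6 = 1 := by
    have : Nat.gcd p 6 = 1 := h1
    rw [Nat.gcd_comm, Nat.gcd_rec] at this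
    exact this
  have e2 : Nat.gcd ((p + 2) % 6) 6 = 1 := by
    have : Nat.gcd (p + 2) 6 = 1 := h2
    rw [Nat.gcd_comm, Nat.gcd_rec] at this
    exact this
  have h3 : p % 6 < 6 := Nat.mod_lt _ (by norm_num)
  have h4 : (p + 2) % 6 = (p % 6 + 2) % 6 := by omega
  rw [h4] at e2
  generalize p % 6 = r at *
  interval_cases r <;> simp_all

open Classical in
lemma card_tr (S : Set ℕ) (hS : ∀ n ∈ S, n.Coprime 6) (x : ℕ) (P : ℕ → Prop) :
    ((range (x + 1)).filter fun p => First S p ∧ P p).card =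
      ((range ((x + 1) / 6)).filter fun k => First S (6 * k + 5) ∧ P (6 * k + 5)).card := by
  apply Finset.card_nbij' (fun p => p / 6) (fun k => 6 * k + 5)
  · intro p hp
    simp only [Finset.coe_filter, Finset.mem_range, Set.mem_ofPred_eq] at hp ⊢
    obtain ⟨h1, h2, h3⟩ := hp
    have h4 := first_mod hS h2
    have h5 : 6 * (p / 6) + 5 = p := by omega
    rw [h5]
    exact ⟨by omega, h2, h3⟩
  · intro k hk
    simp only [Finset.coe_filter, Finset.mem_range, Set.mem_ofPred_eq] at hk ⊢
    obtain ⟨h1, h2, h3⟩ := hk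
    exact ⟨by omega, h2, h3⟩
  · intro p hp
    simp only [Finset.coe_filter, Finset.mem_range, Set.mem_ofPred_eq] at hp
    have h4 := first_mod hS hp.2.1
    show 6 * (p / 6) + 5 = p
    omega
  · intro k _
    show (6 * k + 5) / 6 = k
    omega

lemma next_unique {S : Set ℕ} {p a b : ℕ} (ha : Next S p a) (hb : Next S p b) : a = b := by
  rcases lt_trichotomy a b with h | h | h
  · exact absurd ha.2.1 (hb.2.2 a ha.1 h)
  · exact h
  · exact absurd hb.2.1 (ha.2.2 b hb.1 h)

lemma next_exists {S : Set ℕ} (hI : {p | First S p}.Infinite) (p : ℕ) : ∃ p', Next S p p' := by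
  classical
  have h : ∃ m, p < m ∧ First S m := by
    obtain ⟨b, hb, hpb⟩ := hI.exists_gt p
    exact ⟨b, hpb, hb⟩
  refine ⟨Nat.find h, (Nat.find_spec h).1, (Nat.find_spec h).2, fun m h1 h2 h3 => ?_⟩
  exact Nat.find_min h h2 ⟨h1, h3⟩

lemma next_sum (S : Set ℕ) (hS : ∀ n ∈ S, n.Coprime 6) (hI : {p | First S p}.Infinite) (x a : ℕ) :
    pi2next S x a 1 + pi2next S x a 3 = pi2 S x a := by
  classical
  unfold pi2next pi2
  rw [Finset.card_filter, Finset.card_filter, Finset.card_filter, ← Finset.sum_add_distrib]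
  refine Finset.sum_congr rfl fun p _ => ?_
  by_cases h1 : First S p ∧ p % 4 = a
  · obtain ⟨p', hp'⟩ := next_exists hI p
    have h6 := first_mod hS hp'.2.1
    have hc : p' % 4 = 1 ∨ p' % 4 = 3 := by omega
    have hu : ∀ b, (∃ q, Next S p q ∧ q % 4 = b) ↔ p' % 4 = b := by
      intro b
      constructor
      · rintro ⟨q, hq, hb⟩
        rw [next_unique hp' hq]
        exact hb
      · intro hb
        exact ⟨p', hp', hb⟩
    simp only [hu]
    rcases hc with hc | hc
    · rw [if_pos ⟨h1.1, h1.2, hc⟩, if_neg (by rintro ⟨_, _, h⟩; omega), if_pos h1]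
    · rw [if_neg (by rintro ⟨_, _, h⟩; omega), if_pos ⟨h1.1, h1.2, hc⟩, if_pos h1]
  · rw [if_neg (fun h => h1 ⟨h.1, h.2.1⟩), if_neg (fun h => h1 ⟨h.1, h.2.1⟩), if_neg h1]

theorem main : tCOMBA := by
  classical
  intro S hS hI x
  refine ⟨?_, ?_, next_sum S hS hI x 1, next_sum S hS hI x 3⟩
  · have e : pi2 S x 1 = ((range ((x + 1) / 6)).filter fun k =>
        First S (6 * k + 5) ∧ (6 * k + 5) % 4 = 1).card := by
      unfold pi2
      convert card_tr S hS x (fun p => p % 4 = 1)
    rw [e, Finset.card_filter, ← Finset.sum_add_distrib,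
      Finset.sum_div]
    push_cast
    refine Finset.sum_congr rfl fun k _ => ?_
    unfold TT
    by_cases hf : First S (6 * k + 5)
    · rcases Nat.even_or_odd k with hk | hk
      · have : (6 * k + 5) % 4 = 1 := by obtain ⟨j, rfl⟩ := hk; omega
        rw [if_pos ⟨hf, this⟩, if_pos hf, hk.neg_one_pow]
        norm_num
      · have : ¬ (6 * k + 5) % 4 = 1 := by obtain ⟨j, rfl⟩ := hk; omega
        rw [if_neg (fun h => this h.2), if_pos hf, hk.neg_one_pow]
        norm_num
    · rw [if_neg (fun h => hf h.1), if_neg hf]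
      simp
  · have e : pi2 S x 3 = ((range ((x + 1) / 6)).filter fun k =>
        First S (6 * k + 5) ∧ (6 * k + 5) % 4 = 3).card := by
      unfold pi2
      convert card_tr S hS x (fun p => p % 4 = 3)
    rw [e, Finset.card_filter, ← Finset.sum_sub_distrib,
      Finset.sum_div]
    push_cast
    refine Finset.sum_congr rfl fun k _ => ?_
    unfold TT
    by_cases hf : First S (6 * k + 5)
    · rcases Nat.even_or_odd k with hk | hk
      · have : ¬ (6 * k + 5) % 4 = 3 := by obtain ⟨j, rfl⟩ := hk; omega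
        rw [if_neg (fun h => this h.2), if_pos hf, hk.neg_one_pow]
        norm_num
      · have : (6 * k + 5) % 4 = 3 := by obtain ⟨j, rfl⟩ := hk; omega
        rw [if_pos ⟨hf, this⟩, if_pos hf, hk.neg_one_pow]
        norm_num
    · rw [if_neg (fun h => hf h.1), if_neg hf]
      simp

end Pool.Agent.N227.TB
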